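import Pool.Agent.FPV.LO2

/-!
Module IT2: the iteration over the scales: the block energy at scale `2 ^ j` is at most
`C n exp (-(log (j + 1)) ^ 2 / 16)`.
-/

set_option autoImplicit false

noncomputable section

namespace Pool.FPV

open Finset Pool.FPP

/-- the decay function -/
def psi (j : ℕ) : ℝ := Real.exp (-(Real.log ((j : ℝ) + 1)) ^ 2 / 16)

theorem psi_pos (j : ℕ) : 0 < psi j := Real.exp_pos _

theorem log_succ_nonneg (j : ℕ) : 0 ≤ Real.log ((j : ℝ) + 1) := by
  apply Real.log_nonneg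
  have : (0 : ℝ) ≤ j := Nat.cast_nonneg _
  linarith

theorem psi_le_one (j : ℕ) : psi j ≤ 1 := by
  unfold psi
  rw [Real.exp_le_one_iff]
  have := sq_nonneg (Real.log ((j : ℝ) + 1))
  linarith

theorem psi_anti {i j : ℕ} (hij : i ≤ j) : psi j ≤ psi i := by
  unfold psi
  apply Real.exp_le_exp.2
  have h1 : Real.log ((i : ℝ) + 1) ≤ Real.log ((j : ℝ) + 1) := by
    apply Real.log_le_log
    · have : (0 : ℝ) ≤ i := Nat.cast_nonneg _
      linarith
    · have : (i : ℝ) ≤ j := by exact_mod_cast hij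
      linarith
  have h2 := pow_le_pow_left₀ (log_succ_nonneg i) h1 2
  linarith

theorem log30 : Real.log 30 ≤ 4 := by
  rw [Real.log_le_iff_le_exp (by norm_num)]
  have h1 := Real.exp_one_gt_d9
  have h2 : Real.exp 4 = Real.exp 1 ^ 4 := by
    rw [← Real.exp_nat_mul]
    norm_num
  rw [h2]
  have h3 : (2.7 : ℝ) ^ 4 ≤ Real.exp 1 ^ 4 := by
    apply pow_le_pow_left₀ (by norm_num)
    linarith
  norm_num at h3 ⊢
  linarith

/-- the main step of the iteration -/
theorem psi_step (h j : ℕ) (hh : 12000 ≤ h) (h4 : 4 * h ≤ j) (hj : j + 1 ≤ 120 * h) :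
    5 / (h : ℝ) * psi (4 * h) ≤ 1 / 2 * psi j := by
  have hh0 : (0 : ℝ) < h := by
    have : 0 < h := by omega
    exact_mod_cast this
  have hh' : (12000 : ℝ) ≤ h := by exact_mod_cast hh
  set A : ℝ := Real.log ((j : ℝ) + 1) with hA
  set B : ℝ := Real.log (((4 * h : ℕ) : ℝ) + 1) with hB
  have hB0 : 0 ≤ B := log_succ_nonneg _
  have hBA : B ≤ A := by
    apply Real.log_le_log
    · positivity
    · have : ((4 * h : ℕ) : ℝ) ≤ j := by exact_mod_cast h4
      linarith
  have hAB : A ≤ B + 4 := by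
    have h1 : (j : ℝ) + 1 ≤ 30 * (((4 * h : ℕ) : ℝ) + 1) := by
      have : ((j + 1 : ℕ) : ℝ) ≤ ((120 * h : ℕ) : ℝ) := by exact_mod_cast hj
      push_cast at this ⊢
      linarith
    have h2 : A ≤ Real.log (30 * (((4 * h : ℕ) : ℝ) + 1)) :=
      Real.log_le_log (by positivity) h1
    rw [Real.log_mul (by norm_num) (by positivity)] at h2
    have := log30
    linarith
  have h3 : A ^ 2 - B ^ 2 ≤ 8 * A := by
    have : A ^ 2 - B ^ 2 = (A - B) * (A + B) := by ring
    rw [this]
    nlinarith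
  have h5 : psi (4 * h) ≤ Real.exp (A / 2) * psi j := by
    unfold psi
    rw [← Real.exp_add]
    apply Real.exp_le_exp.2
    rw [← hA, ← hB]
    linarith
  have h6 : Real.exp (A / 2) ≤ (h : ℝ) / 10 := by
    have h7 : Real.exp (A / 2) ^ 2 ≤ ((h : ℝ) / 10) ^ 2 := by
      have h8 : Real.exp (A / 2) ^ 2 = (j : ℝ) + 1 := by
        rw [← Real.exp_nat_mul]
        have : ((2 : ℕ) : ℝ) * (A / 2) = A := by push_cast; ring
        rw [this, hA, Real.exp_log (by positivity)]
      rw [h8]
      have : ((j + 1 : ℕ) : ℝ) ≤ ((120 * h : ℕ) : ℝ) := by exact_mod_cast hj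
      push_cast at this
      nlinarith
    exact le_of_pow_le_pow_left₀ (by norm_num) (by positivity) h7
  have hp := psi_pos j
  calc 5 / (h : ℝ) * psi (4 * h) ≤ 5 / (h : ℝ) * (Real.exp (A / 2) * psi j) :=
        mul_le_mul_of_nonneg_left h5 (by positivity)
    _ ≤ 5 / (h : ℝ) * ((h : ℝ) / 10 * psi j) :=
        mul_le_mul_of_nonneg_left (mul_le_mul_of_nonneg_right h6 hp.le) (by positivity)
    _ = 1 / 2 * psi j := by field_simp; norm_num

/-- the exponentially small term -/
theorem psi_exp (h j : ℕ) (hh : 12000 ≤ h) (hj : j + 1 ≤ 120 * h) :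
    1 / (2 : ℝ) ^ h ≤ psi j := by
  have hh0 : (0 : ℝ) < h := by
    have : 0 < h := by omega
    exact_mod_cast this
  have hh' : (12000 : ℝ) ≤ h := by exact_mod_cast hh
  set A : ℝ := Real.log ((j : ℝ) + 1) with hA
  have hA0 : 0 ≤ A := log_succ_nonneg _
  have h1 : A ≤ 4 * ((j : ℝ) + 1) ^ ((1 : ℝ) / 4) := by
    have := Real.log_le_rpow_div (x := (j : ℝ) + 1) (by positivity) (ε := 1 / 4) (by norm_num)
    rw [← hA] at this
    linarith
  have h2 : A ^ 2 ≤ 16 * (((j : ℝ) + 1) ^ ((1 : ℝ) / 4)) ^ 2 := by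
    calc A ^ 2 ≤ (4 * ((j : ℝ) + 1) ^ ((1 : ℝ) / 4)) ^ 2 := pow_le_pow_left₀ hA0 h1 2
      _ = _ := by ring
  set s : ℝ := (((j : ℝ) + 1) ^ ((1 : ℝ) / 4)) ^ 2 with hs
  have hs0 : 0 ≤ s := by positivity
  have hs2 : s ^ 2 = (j : ℝ) + 1 := by
    rw [hs, ← pow_mul, ← Real.rpow_natCast, ← Real.rpow_mul (by positivity)]
    norm_num
  have hs3 : s ≤ (h : ℝ) / 10 := by
    have h7 : s ^ 2 ≤ ((h : ℝ) / 10) ^ 2 := by
      rw [hs2]
      have : ((j + 1 : ℕ) : ℝ) ≤ ((120 * h : ℕ) : ℝ) := by exact_mod_cast hj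
      push_cast at this
      nlinarith
    exact le_of_pow_le_pow_left₀ (by norm_num) (by positivity) h7
  have hl2 : (1 : ℝ) / 10 ≤ Real.log 2 := by
    have := Real.log_two_gt_d9
    linarith
  have h8 : 1 / (2 : ℝ) ^ h = Real.exp (-(h * Real.log 2)) := by
    rw [Real.exp_neg, Real.exp_nat_mul, Real.exp_log (by norm_num), one_div]
  rw [h8]
  unfold psi
  apply Real.exp_le_exp.2
  rw [← hA]
  nlinarith

/-- the torus version of the main theorem -/
theorem torus2 (a b : ℝ) (ha : 0 < a) (hab : a < b) :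
    ∃ C : ℝ, 0 ≤ C ∧ ∀ (N : ℕ) [NeZero N] (v : Vtx N) (j : ℕ), 2 ^ j ∣ N →
      2 ^ j ≤ rho 0 v →
      Ex (fun ω => (FF a b v 0 ω - Ex (FF a b v 0)) ^ 2) ≤ C * rho 0 v * psi j := by
  have hb : 0 < b := ha.trans hab
  obtain ⟨K, hK, hstep⟩ := local2 a b ha hab
  obtain ⟨H, hH⟩ : ∃ H : ℕ, H = 12000 := ⟨_, rfl⟩
  set B : ℝ := (b - a) ^ 2 * (b / a) with hB
  have hB0 : 0 ≤ B := by positivity
  have hp0 : 0 < psi (60 * H) := psi_pos _
  set C : ℝ := 2 * K + B / psi (60 * H) with hC
  have hC0 : 0 ≤ C := by positivity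
  refine ⟨C, hC0, ?_⟩
  intro N _ v
  have main : ∀ j : ℕ, 2 ^ j ∣ N → 2 ^ j ≤ rho 0 v →
      EB a b v (2 ^ j) ≤ C * rho 0 v * psi j := by
    intro j
    induction j using Nat.strong_induction_on with
    | _ j ih =>
      intro hjN hjn
      have hn0 : (0:ℝ) ≤ rho 0 v := Nat.cast_nonneg _
      by_cases hjs : j < 60 * H
      · -- small scales
        have h1 := ite_EB_le ha hab v (2 ^ j)
        have h2 : psi (60 * H) ≤ psi j := psi_anti hjs.le
        calc EB a b v (2 ^ j) ≤ B * rho 0 v := h1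
          _ = B / psi (60 * H) * rho 0 v * psi (60 * H) := by field_simp
          _ ≤ C * rho 0 v * psi j := by
              apply mul_le_mul _ h2 hp0.le (by positivity)
              apply mul_le_mul_of_nonneg_right _ hn0
              rw [hC]
              linarith
      · -- large scales
        push Not at hjs
        set h : ℕ := j / 60 with hh
        have hh1 : H ≤ h := by
          rw [hh, Nat.le_div_iff_mul_le (by norm_num)]
          omega
        have hhpos : 1 ≤ h := by omega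
        have hhj : 60 * h ≤ j := by
          have := Nat.div_mul_le_self j 60
          omega
        have hjh : j + 1 ≤ 120 * h := by
          have := Nat.lt_div_mul_add (a := j) (b := 60) (by norm_num)
          omega
        have hdN : ∀ i : ℕ, i ≤ j → 2 ^ i ∣ N := fun i hi => (pow_dvd_pow 2 hi).trans hjN
        have hdn : ∀ i : ℕ, i ≤ j → 2 ^ i ≤ rho 0 v := fun i hi =>
          (Nat.pow_le_pow_right (by norm_num) hi).trans hjn
        have e1 : EB a b v (2 ^ j) ≤ EB a b v (2 ^ (60 * h)) :=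
          ite_EB_anti a b v (by positivity) (pow_dvd_pow 2 hhj) (by positivity)
        have e2 := hstep h hhpos N (hdN _ hhj) v (hdn _ hhj)
        have e3 := ih (4 * h) (by omega) (hdN _ (by omega)) (hdn _ (by omega))
        have hh0 : (0:ℝ) < h := by exact_mod_cast hhpos
        have hh2 : 12000 ≤ h := by rw [← hH]; exact hh1
        have p1 := psi_step h j hh2 (by omega) hjh
        have p2 := psi_exp h j hh2 hjh
        set n : ℝ := (rho 0 v : ℝ) with hn
        have q1 : 5 / (h : ℝ) * EB a b v (2 ^ (4 * h)) ≤ 1 / 2 * (C * n * psi j) := by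
          calc 5 / (h : ℝ) * EB a b v (2 ^ (4 * h)) ≤ 5 / (h : ℝ) * (C * n * psi (4 * h)) :=
                mul_le_mul_of_nonneg_left e3 (by positivity)
            _ = C * n * (5 / (h : ℝ) * psi (4 * h)) := by ring
            _ ≤ C * n * (1 / 2 * psi j) := mul_le_mul_of_nonneg_left p1 (by positivity)
            _ = _ := by ring
        have q2 : K * n / 2 ^ h ≤ 1 / 2 * (C * n * psi j) := by
          have hKC : K ≤ 1 / 2 * C := by
            rw [hC]
            have : 0 ≤ B / psi (60 * H) := by positivity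
            linarith
          calc K * n / 2 ^ h = K * n * (1 / 2 ^ h) := by ring
            _ ≤ K * n * psi j := mul_le_mul_of_nonneg_left p2 (by positivity)
            _ ≤ 1 / 2 * C * n * psi j := by
                have := psi_pos j
                gcongr
            _ = _ := by ring
        linarith
  intro j hjN hjn
  exact (ite_var_le_EB a b v (2 ^ j)).trans (main j hjN hjn)

end Pool.FPV
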