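import Pool.Agent.FPP.FIN
import Pool.Agent.FPV.IT2

/-!
Module FI2: the final assembly: the variance on the square lattice.
-/

set_option autoImplicit false

noncomputable section

namespace Pool.FPV

open Pool.FPP

/-- the bound for the lattice variance in terms of the graph distance `n` of `0` and `v`
and an exponent `j` with `n < 2 ^ (j + 1)` -/
theorem fi2_lattice (a b : ℝ) (ha : 0 < a) (hab : a < b) :
    ∃ D : ℝ, 0 ≤ D ∧ ∀ v : ℤ × ℤ, 1 ≤ v.1.natAbs + v.2.natAbs →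
      ∃ j : ℕ, 1 ≤ j ∧ v.1.natAbs + v.2.natAbs < 2 ^ (j + 1) ∧
        latticeVar a b v ≤ D * ((v.1.natAbs + v.2.natAbs : ℕ) : ℝ) * psi j := by
  obtain ⟨C, hC, hT⟩ := torus2 a b ha hab
  have hc1 : 0 ≤ (b - a) ^ 2 * (b / a) :=
    mul_nonneg (sq_nonneg _) (div_nonneg (ha.trans hab).le ha.le)
  have hp1 := psi_pos 1
  refine ⟨C + (b - a) ^ 2 * (b / a) / psi 1, by positivity, ?_⟩
  intro v hv
  obtain ⟨N₀, hN₀⟩ := transfer a b ha hab v
  set n : ℕ := v.1.natAbs + v.2.natAbs with hn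
  have hbig : N₀ + 2 * n + 1 ≤ 2 ^ (N₀ + 2 * n + 1) := Nat.lt_two_pow_self.le
  have hN1 : N₀ ≤ 2 ^ (N₀ + 2 * n + 1) := by omega
  have hN2 : 2 * n < 2 ^ (N₀ + 2 * n + 1) := by omega
  have hvar := hN₀ (2 ^ (N₀ + 2 * n + 1)) hN1
  have hrho : rho 0 (redV (2 ^ (N₀ + 2 * n + 1)) v) = n := rho_redV v hN2
  have hn0 : (0 : ℝ) ≤ (n : ℝ) := Nat.cast_nonneg n
  by_cases h1 : n = 1
  · refine ⟨1, le_refl 1, by rw [h1]; norm_num, ?_⟩
    have ht := torus_trivial a b ha hab (2 ^ (N₀ + 2 * n + 1)) (redV (2 ^ (N₀ + 2 * n + 1)) v)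
    rw [hvar]
    rw [hrho] at ht
    refine ht.trans ?_
    have h2 : (b - a) ^ 2 * (b / a) * (n : ℝ) =
        (b - a) ^ 2 * (b / a) / psi 1 * (n : ℝ) * psi 1 := by
      field_simp
    rw [h2]
    have h3 : (b - a) ^ 2 * (b / a) / psi 1 ≤ C + (b - a) ^ 2 * (b / a) / psi 1 := by linarith
    exact mul_le_mul_of_nonneg_right (mul_le_mul_of_nonneg_right h3 hn0) hp1.le
  · have h2 : 2 ≤ n := by omega
    have hj1 : 1 ≤ Nat.log 2 n := Nat.log_pos (by norm_num) h2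
    have hjn : 2 ^ Nat.log 2 n ≤ n := Nat.pow_log_le_self 2 (by omega)
    have hnj : n < 2 ^ (Nat.log 2 n + 1) := Nat.lt_pow_succ_log_self (by norm_num) n
    refine ⟨Nat.log 2 n, hj1, hnj, ?_⟩
    have hjJ : Nat.log 2 n ≤ N₀ + 2 * n + 1 := by
      have := Nat.log_le_self 2 n
      omega
    have ht := hT (2 ^ (N₀ + 2 * n + 1)) (redV (2 ^ (N₀ + 2 * n + 1)) v) (Nat.log 2 n)
      (pow_dvd_pow 2 hjJ) (by rw [hrho]; exact hjn)
    rw [hrho] at ht
    rw [hvar]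
    refine ht.trans ?_
    have h3 : C ≤ C + (b - a) ^ 2 * (b / a) / psi 1 := by
      have : 0 ≤ (b - a) ^ 2 * (b / a) / psi 1 := by positivity
      linarith
    exact mul_le_mul_of_nonneg_right (mul_le_mul_of_nonneg_right h3 hn0) (psi_pos _).le

theorem main2 : ∀ a b : ℝ, 0 < a → a < b → ∃ C : ℝ, ∀ v : ℤ × ℤ, v ≠ 0 →
    ProbabilityTheory.variance
      (fun ω : (ℤ × ℤ) × Fin 2 → Bool =>
        sInf {t : ℝ | ∃ (n : ℕ) (p : ℕ → ℤ × ℤ), p 0 = 0 ∧ p n = v ∧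
          (∀ k < n, |(p (k+1)).1 - (p k).1| + |(p (k+1)).2 - (p k).2| = 1) ∧
          t = ∑ k ∈ Finset.range n,
            (if ω ((min (p k).1 (p (k+1)).1, min (p k).2 (p (k+1)).2),
                  (if (p k).2 = (p (k+1)).2 then (0 : Fin 2) else (1 : Fin 2))) = true
              then a else b)})
      (MeasureTheory.Measure.infinitePi
        (fun _ : (ℤ × ℤ) × Fin 2 => (PMF.uniformOfFintype Bool).toMeasure))
    ≤ C * Real.sqrt (((v.1 : ℝ)) ^ 2 + ((v.2 : ℝ)) ^ 2) *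
        Real.exp (-(Real.log (Real.log (3 + Real.sqrt (((v.1 : ℝ)) ^ 2 + ((v.2 : ℝ)) ^ 2)))) ^ 2
          / 64) := by
  intro a b ha hab
  obtain ⟨D, hD, hb⟩ := fi2_lattice a b ha hab
  refine ⟨D * 2, ?_⟩
  intro v hv
  have hn1 : 1 ≤ v.1.natAbs + v.2.natAbs := by
    by_contra hcon
    apply hv
    have h1 : v.1.natAbs = 0 := by omega
    have h2 : v.2.natAbs = 0 := by omega
    exact Prod.ext (Int.natAbs_eq_zero.mp h1) (Int.natAbs_eq_zero.mp h2)
  obtain ⟨j, hj1, hnj, hvar⟩ := hb v hn1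
  change latticeVar a b v ≤ _
  refine hvar.trans ?_
  obtain ⟨hr1, hr2⟩ := fin_real v.1 v.2
  set r : ℝ := Real.sqrt (((v.1 : ℝ)) ^ 2 + ((v.2 : ℝ)) ^ 2) with hr
  set n : ℕ := v.1.natAbs + v.2.natAbs with hn
  have hr0 : 0 ≤ r := Real.sqrt_nonneg _
  have hj : (1 : ℝ) ≤ (j : ℝ) := by exact_mod_cast hj1
  have hl2 : Real.log 2 ≤ 1 := by
    have := Real.log_two_lt_d9
    linarith
  have hl20 : 0 < Real.log 2 := Real.log_pos (by norm_num)
  -- lower bound of the double logarithm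
  have hlog1 : 1 ≤ Real.log (3 + r) := by
    rw [Real.le_log_iff_exp_le (by linarith)]
    have := Real.exp_one_lt_d9
    linarith
  have hll0 : 0 ≤ Real.log (Real.log (3 + r)) := Real.log_nonneg hlog1
  have hlog : Real.log (3 + r) ≤ 2 * ((j : ℝ) + 1) := by
    have h1 : 3 + r ≤ (2 : ℝ) ^ (j + 2) := by
      have h2 : n + 3 ≤ 2 ^ (j + 2) := by
        have h3 : 2 ^ 1 ≤ 2 ^ j := Nat.pow_le_pow_right (by norm_num) hj1
        have h4 : 2 ^ (j + 2) = 2 * 2 ^ (j + 1) := by ring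
        have h5 : 2 ^ (j + 1) = 2 * 2 ^ j := by ring
        omega
      have h6 : (n : ℝ) + 3 ≤ (2 : ℝ) ^ (j + 2) := by exact_mod_cast h2
      linarith
    have h7 : Real.log (3 + r) ≤ Real.log ((2 : ℝ) ^ (j + 2)) :=
      Real.log_le_log (by linarith) h1
    rw [Real.log_pow] at h7
    have h9 : ((j + 2 : ℕ) : ℝ) * Real.log 2 ≤ ((j + 2 : ℕ) : ℝ) * 1 :=
      mul_le_mul_of_nonneg_left hl2 (Nat.cast_nonneg _)
    have h10 : ((j + 2 : ℕ) : ℝ) = (j : ℝ) + 2 := by push_cast; ring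
    rw [h10] at h9 h7
    linarith
  have hll : Real.log (Real.log (3 + r)) ≤ 2 * Real.log ((j : ℝ) + 1) := by
    have h1 : Real.log (Real.log (3 + r)) ≤ Real.log (2 * ((j : ℝ) + 1)) :=
      Real.log_le_log (by linarith) hlog
    rw [Real.log_mul (by norm_num) (by positivity)] at h1
    have h2 : Real.log 2 ≤ Real.log ((j : ℝ) + 1) :=
      Real.log_le_log (by norm_num) (by linarith)
    linarith
  have hpsi : psi j ≤ Real.exp (-(Real.log (Real.log (3 + r))) ^ 2 / 64) := by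
    unfold psi
    apply Real.exp_le_exp.2
    have h1 := pow_le_pow_left₀ hll0 hll 2
    have h2 : (2 * Real.log ((j : ℝ) + 1)) ^ 2 = 4 * Real.log ((j : ℝ) + 1) ^ 2 := by ring
    rw [h2] at h1
    linarith
  have hDn : D * (n : ℝ) ≤ D * 2 * r := by
    have := mul_le_mul_of_nonneg_left hr2 hD
    linarith
  have h0 : 0 ≤ D * (n : ℝ) := mul_nonneg hD (Nat.cast_nonneg _)
  exact mul_le_mul hDn hpsi (psi_pos j).le (by positivity)

end Pool.FPV
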