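import Pool.Agent.FPV.HUB

/-!
Module PL2: the planting bound with hubs.
If the increment at the tile `c_z` exceeds the effect of the planting, then the geodesic of the common
environment passes through `c_z`, and it passes through at most `C w` of the `w ^ 2` tiles `c_z`.
-/

set_option autoImplicit false

noncomputable section

namespace Pool.FPV

open Finset Pool.FPP

section

variable {N : ℕ} [NeZero N] {a b : ℝ}

/-- the permutation of the edges given by the inner shift -/
def pl2E {L : ℕ} (hL : 0 < L) (hLN : L ∣ N) (C : Vtx N) (hC : corner L C = C)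
    (z : ℕ × ℕ) : Edge N ≃ Edge N where
  toFun e := (innV L C z e.1, e.2)
  invFun e := (innV L C (L - z.1 % L, L - z.2 % L) e.1, e.2)
  left_inv e := by
    have := (innV_innV hL hLN C hC z e.1).1
    simp only [this]
  right_inv e := by
    have := (innV_innV hL hLN C hC z e.1).2
    simp only [this]

/-- integers with the same residue: the minimal representative is at most any other one -/
theorem pl2_min (k : ℤ) : (ZMod.valMinAbs ((k : ℤ) : ZMod N)).natAbs ≤ k.natAbs := by
  refine ZMod.natAbs_min_of_le_div_two N _ k ?_ (ZMod.natAbs_valMinAbs_le _)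
  rw [ZMod.coe_valMinAbs]

/-- the offset of the shifted corner -/
def pl2o (L l₀ o i : ℕ) : ℕ := (o + l₀ * i) % L

theorem pl2_diff {L l₀ w o i i' : ℕ} (ho : o < L) (hi : i < w) (hi' : i' < w)
    (hwL : 2 * (l₀ * w) ≤ L) (hg : decide (L ≤ o + l₀ * i) = decide (L ≤ o + l₀ * i')) :
    ((pl2o L l₀ o i : ℕ) : ℤ) - ((pl2o L l₀ o i' : ℕ) : ℤ) = (l₀ : ℤ) * i - (l₀ : ℤ) * i' := by
  have h1 : l₀ * i ≤ l₀ * w := Nat.mul_le_mul_left _ hi.le
  have h2 : l₀ * i' ≤ l₀ * w := Nat.mul_le_mul_left _ hi'.le
  unfold pl2o
  by_cases hc : L ≤ o + l₀ * i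
  · have hc' : L ≤ o + l₀ * i' := by
      rw [decide_eq_decide] at hg
      exact hg.mp hc
    rw [Nat.mod_eq_sub_mod hc, Nat.mod_eq_sub_mod hc', Nat.mod_eq_of_lt (by omega),
      Nat.mod_eq_of_lt (by omega)]
    push_cast [Nat.cast_sub hc, Nat.cast_sub hc']
    ring
  · have hc' : ¬ L ≤ o + l₀ * i' := by
      rw [decide_eq_decide] at hg
      exact fun h => hc (hg.mpr h)
    rw [Nat.mod_eq_of_lt (by omega), Nat.mod_eq_of_lt (by omega)]
    push_cast
    ring

theorem pl2_abs {l₀ w i i' : ℕ} (h0 : 0 < l₀) (hi : i < w) (hi' : i' < w) :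
    ((l₀ : ℤ) * i - (l₀ : ℤ) * i').natAbs < l₀ * w := by
  rw [← mul_sub, Int.natAbs_mul, Int.natAbs_natCast]
  refine Nat.mul_lt_mul_of_pos_left ?_ h0
  omega

open Classical in
/-- THE PLANTING BOUND with hubs. -/
theorem planting2 (ha : 0 < a) (hab : a < b) {l l₀ L w d : ℕ} (hl : 0 < l) (hl₀ : l ∣ l₀)
    (h0 : 0 < l₀) (h : l₀ ∣ L) (hL : 0 < L) (hLN : L ∣ N) (hw : 0 < w) (hwL : 2 * (l₀ * w) ≤ L)
    (v u C : Vtx N) (hC : corner L C = C) (c₀ : Vtx N) (hc₀ : c₀ ∈ subTiles l₀ L C)
    (t₀ : ℝ) (ht₀ : b ^ 2 / a * d * (2 * l + 2) ≤ t₀) (ht₀' : 0 < t₀)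
    (S : Finset (Vtx N)) (hS : S ⊆ subTiles l L C) (hSd : S.card ≤ d)
    (ω2 : Edge N → Bool × Bool) :
    Ex (fun z : Fin w × Fin w => av (U (tileE l) (subTiles l L C \ S))
      (fun w' : Edge N → Bool × Bool =>
        if t₀ < inc (tileE l₀ c₀) (fun ω => FF a b v u (sg L C (l₀ * z.1, l₀ * z.2) ω)) w'
        then (1 : ℝ) else 0) ω2) ≤ 324 * (b / a) / w := by
  have hb : 0 < b := ha.trans hab
  have hlL : l ∣ L := hl₀.trans h
  set A := U (tileE l) (subTiles l L C \ S) with hA
  -- the shift by `z` as a pair of naturals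
  set zz : Fin w × Fin w → ℕ × ℕ := fun z => (l₀ * (z.1 : ℕ), l₀ * (z.2 : ℕ)) with hzz
  set π : Fin w × Fin w → (Edge N ≃ Edge N) := fun z => pl2E hL hLN C hC (zz z) with hπ
  -- the configuration before the shift
  set wz : (Edge N → Bool × Bool) → Fin w × Fin w → (Edge N → Bool × Bool) :=
    fun θ z => mix A (fun e => θ (π z e)) ω2 with hwz
  set ev : Fin w × Fin w → (Edge N → Bool × Bool) → Prop := fun z w' =>
    t₀ < inc (tileE l₀ c₀) (fun ω => FF a b v u (sg L C (l₀ * z.1, l₀ * z.2) ω)) w' with hev
  have hwr : (0 : ℝ) < w := by exact_mod_cast hw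
  have step1 : Ex (fun z : Fin w × Fin w => av A (fun w' : Edge N → Bool × Bool =>
      if ev z w' then (1 : ℝ) else 0) ω2) =
      Ex (fun θ : Edge N → Bool × Bool => Ex (fun z : Fin w × Fin w =>
        if ev z (wz θ z) then (1 : ℝ) else 0)) := by
    rw [Ex_comm (fun (θ : Edge N → Bool × Bool) (z : Fin w × Fin w) =>
        if ev z (wz θ z) then (1 : ℝ) else 0)]
    congr 1
    funext z
    unfold av
    have hq := Ex_equiv ((π z).symm.arrowCongr (Equiv.refl (Bool × Bool)))
      (fun η : Edge N → Bool × Bool => if ev z (mix A η ω2) then (1 : ℝ) else 0)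
    rw [← hq]
    rfl
  rw [step1]
  -- pointwise bound
  have key : ∀ θ : Edge N → Bool × Bool,
      Ex (fun z : Fin w × Fin w => if ev z (wz θ z) then (1 : ℝ) else 0) ≤
        324 * (b / a) / w := by
    intro θ
    set Zs : Finset (Fin w × Fin w) := univ.filter (fun z => ev z (wz θ z)) with hZs
    set cz : Fin w × Fin w → Vtx N := fun z => innV L C (zz z) c₀ with hcz
    set oz : Fin w × Fin w → (Edge N → Bool) := fun z => sg L C (zz z) (fstc (wz θ z)) with hoz
    have hcard : (Zs.card : ℝ) ≤ 4 * (81 * (b / a) * w) := by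
      obtain ⟨hc1, hc2⟩ := mem_subTiles.mp hc₀
      -- the geodesic of the common environment passes through all tiles `cz z`, `z ∈ Zs`
      have hagree : ∀ z, ∀ e ∉ U (tileE l) (S.image (innV L C (zz z))),
          oz z e = fstc (mix (tileE L C) θ ω2) e := by
        intro z e he
        have hsub : ∀ e' : Edge N, e' ∈ A → corner L e'.1 = C := by
          intro e' he'
          rw [hA, U, Finset.mem_biUnion] at he'
          obtain ⟨c, hc, hce⟩ := he'
          have h1 := (mem_subTiles.mp (Finset.mem_sdiff.mp hc).1)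
          have h2 : corner l e'.1 = c := (Finset.mem_filter.mp hce).2
          rw [← corner_nest hl hlL hL e'.1, h2]
          exact h1.2
        set e' : Edge N := (π z).symm e with he'
        have hee : π z e' = e := (π z).apply_symm_apply e
        have hoze : oz z e = (wz θ z e').1 := rfl
        rw [hoze]
        have hwze : wz θ z e' = if e' ∈ A then θ e else ω2 e' := by
          change (if e' ∈ A then θ (π z e') else ω2 e') = _
          rw [hee]
        rw [hwze]
        change _ = (if e ∈ tileE L C then θ e else ω2 e).1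
        by_cases hin : e ∈ tileE L C
        · rw [if_pos hin]
          have hce : corner L e.1 = C := (Finset.mem_filter.mp hin).2
          have hce' : corner L e'.1 = C := by
            have h3 : corner L e'.1 = corner L e.1 := by
              have h4 : e'.1 = innV L C (L - (zz z).1 % L, L - (zz z).2 % L) e.1 := rfl
              rw [h4, corner_innV hL hLN C hC]
            rw [h3, hce]
          have he'A : e' ∈ A := by
            by_contra hnot
            apply he
            have hmem : corner l e'.1 ∈ subTiles l L C := by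
              rw [mem_subTiles]
              exact ⟨corner_corner l e'.1, by rw [corner_nest hl hlL hL]; exact hce'⟩
            have hSmem : corner l e'.1 ∈ S := by
              by_contra hnS
              apply hnot
              rw [hA, U, Finset.mem_biUnion]
              refine ⟨corner l e'.1, Finset.mem_sdiff.mpr ⟨hmem, hnS⟩, ?_⟩
              exact Finset.mem_filter.mpr ⟨Finset.mem_univ _, rfl⟩
            rw [U, Finset.mem_biUnion]
            refine ⟨innV L C (zz z) (corner l e'.1), Finset.mem_image_of_mem _ hSmem, ?_⟩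
            rw [tileE, Finset.mem_filter]
            refine ⟨Finset.mem_univ _, ?_⟩
            obtain ⟨g, hg⟩ := hl₀
            have h5 : zz z = (l * (g * (z.1 : ℕ)), l * (g * (z.2 : ℕ))) := by
              rw [hzz, hg]
              simp only [Prod.mk.injEq]
              constructor <;> ring
            have h6 : e.1 = innV L C (zz z) e'.1 := by
              have := congrArg Prod.fst hee
              exact this.symm
            rw [h6, h5]
            exact corner_innV_sub hl hlL hL hLN C hC _ _ _
          rw [if_pos he'A]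
        · rw [if_neg hin]
          have hce : corner L e.1 ≠ C := fun hh =>
            hin (Finset.mem_filter.mpr ⟨Finset.mem_univ _, hh⟩)
          have h4 : e' = e := by
            have h5 : e'.1 = innV L C (L - (zz z).1 % L, L - (zz z).2 % L) e.1 := rfl
            have h6 : e'.1 = e.1 := by rw [h5, innV_of_ne hce]
            exact Prod.ext h6 rfl
          rw [h4]
          have h7 : e ∉ A := fun hh => hce (hsub e hh)
          rw [if_neg h7]
      set W : Edge N → Bool := fstc (mix (tileE L C) θ ω2) with hW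
      have hNT : ∀ z ∈ Zs, cz z ∈ (gam a b v u W).image (fun e => corner l₀ e.1) := by
        intro z hz
        have hzev : ev z (wz θ z) := (Finset.mem_filter.mp hz).2
        have h2 := inc_sg h0 h hL hLN C hC (z.1 : ℕ) (z.2 : ℕ) (FF a b v u) c₀ hc₀ (wz θ z)
        set w2 : Edge N → Bool × Bool := fun e =>
          (sg L C (l₀ * (z.1 : ℕ), l₀ * (z.2 : ℕ)) (fstc (wz θ z)) e,
            sg L C (l₀ * (z.1 : ℕ), l₀ * (z.2 : ℕ)) (sndc (wz θ z)) e) with hw2
        have h3 : t₀ < inc (tileE l₀ (innV L C (l₀ * (z.1 : ℕ), l₀ * (z.2 : ℕ)) c₀))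
            (FF a b v u) w2 := by
          rw [← h2]; exact hzev
        have hfst : fstc w2 = oz z := rfl
        have h4 : FF a b v u (oz z) + t₀ < FF a b v u (res (tileE l₀ (cz z)) w2) := by
          unfold inc at h3
          rw [hfst] at h3
          rcases lt_max_iff.1 h3 with h5 | h5
          · linarith
          · have h6 : cz z = innV L C (l₀ * (z.1 : ℕ), l₀ * (z.2 : ℕ)) c₀ := rfl
            rw [h6]
            linarith
        have hcardz : (((S.image (innV L C (zz z))).card : ℕ) : ℝ) ≤ d := by
          exact_mod_cast (Finset.card_image_le.trans hSd)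
        have hpos : (0 : ℝ) ≤ b ^ 2 / a * (2 * l + 2) := by positivity
        have hne := pl2_hub ha hab hl v u (cz z) (S.image (innV L C (zz z))) W (oz z)
          (res (tileE l₀ (cz z)) w2) (fun e he => (hagree z e he).symm)
          (fun e he => by
            unfold res mix
            rw [if_neg he, hfst]) t₀
          (by
            have := mul_le_mul_of_nonneg_right hcardz hpos
            linarith) h4
        obtain ⟨e, he⟩ := hne
        rw [Finset.mem_inter] at he
        rw [Finset.mem_image]
        exact ⟨e, he.1, (Finset.mem_filter.1 he.2).2⟩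
      -- coordinates of `cz z`
      have hczv : ∀ z, cz z = (C.1 + ((pl2o L l₀ (c₀.1.val % L) z.1 : ℕ) : ZMod N),
          C.2 + ((pl2o L l₀ (c₀.2.val % L) z.2 : ℕ) : ZMod N)) := by
        intro z
        change innV L C (zz z) c₀ = _
        unfold innV
        rw [if_pos hc2]
        rfl
      have ho1 : c₀.1.val % L < L := Nat.mod_lt _ hL
      have ho2 : c₀.2.val % L < L := Nat.mod_lt _ hL
      set gr : Fin w × Fin w → Bool × Bool := fun z =>
        (decide (L ≤ c₀.1.val % L + l₀ * z.1), decide (L ≤ c₀.2.val % L + l₀ * z.2)) with hgr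
      have hdiff1 : ∀ z z' : Fin w × Fin w, gr z = gr z' →
          (cz z).1 - (cz z').1 = (((l₀ : ℤ) * (z.1 : ℕ) - (l₀ : ℤ) * (z'.1 : ℕ) : ℤ) : ZMod N) := by
        intro z z' hg
        have h1 := pl2_diff (i := z.1) (i' := z'.1) ho1 z.1.isLt z'.1.isLt hwL (congrArg Prod.fst hg)
        rw [← h1, hczv, hczv]
        push_cast
        ring
      have hdiff2 : ∀ z z' : Fin w × Fin w, gr z = gr z' →
          (cz z).2 - (cz z').2 = (((l₀ : ℤ) * (z.2 : ℕ) - (l₀ : ℤ) * (z'.2 : ℕ) : ℤ) : ZMod N) := by
        intro z z' hg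
        have h1 := pl2_diff (i := z.2) (i' := z'.2) ho2 z.2.isLt z'.2.isLt hwL (congrArg Prod.snd hg)
        rw [← h1, hczv, hczv]
        push_cast
        ring
      have hinj : ∀ g : Bool × Bool, ∀ z ∈ Zs.filter (fun z => gr z = g),
          ∀ z' ∈ Zs.filter (fun z => gr z = g), cz z = cz z' → z = z' := by
        intro g z hz z' hz' hzz'
        obtain ⟨_, hz2⟩ := Finset.mem_filter.mp hz
        obtain ⟨_, hz2'⟩ := Finset.mem_filter.mp hz'
        have hgz : gr z = gr z' := hz2.trans hz2'.symm
        have hLN' : L ≤ N := Nat.le_of_dvd (Nat.pos_of_ne_zero (NeZero.ne N)) hLN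
        have hplt : ∀ o i : ℕ, pl2o L l₀ o i < N := fun o i => (Nat.mod_lt _ hL).trans_le hLN'
        rw [hczv, hczv] at hzz'
        have f1 := congrArg Prod.fst hzz'
        have f2 := congrArg Prod.snd hzz'
        simp only [add_right_inj] at f1 f2
        have g1 : pl2o L l₀ (c₀.1.val % L) z.1 = pl2o L l₀ (c₀.1.val % L) z'.1 := by
          rw [ZMod.natCast_eq_natCast_iff'] at f1
          rwa [Nat.mod_eq_of_lt (hplt _ _), Nat.mod_eq_of_lt (hplt _ _)] at f1
        have g2 : pl2o L l₀ (c₀.2.val % L) z.2 = pl2o L l₀ (c₀.2.val % L) z'.2 := by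
          rw [ZMod.natCast_eq_natCast_iff'] at f2
          rwa [Nat.mod_eq_of_lt (hplt _ _), Nat.mod_eq_of_lt (hplt _ _)] at f2
        have k1 := pl2_diff (i := z.1) (i' := z'.1) ho1 z.1.isLt z'.1.isLt hwL
          (congrArg Prod.fst hgz)
        have k2 := pl2_diff (i := z.2) (i' := z'.2) ho2 z.2.isLt z'.2.isLt hwL
          (congrArg Prod.snd hgz)
        rw [g1, sub_self] at k1
        rw [g2, sub_self] at k2
        have hl0' : (l₀ : ℤ) ≠ 0 := by exact_mod_cast h0.ne'
        have m1 : ((z.1 : ℕ) : ℤ) = ((z'.1 : ℕ) : ℤ) := mul_left_cancel₀ hl0' (by linarith)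
        have m2 : ((z.2 : ℕ) : ℤ) = ((z'.2 : ℕ) : ℤ) := mul_left_cancel₀ hl0' (by linarith)
        exact Prod.ext (Fin.ext (by exact_mod_cast m1)) (Fin.ext (by exact_mod_cast m2))
      have hgroup : ∀ g : Bool × Bool, ((Zs.filter (fun z => gr z = g)).card : ℝ) ≤
          81 * (b / a) * w := by
        intro g
        set G : Finset (Vtx N) := (Zs.filter (fun z => gr z = g)).image cz with hG
        have hcG : (Zs.filter (fun z => gr z = g)).card = G.card :=
          (Finset.card_image_of_injOn (fun z hz z' hz' => hinj g z (Finset.mem_coe.1 hz) z'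
            (Finset.mem_coe.1 hz'))).symm
        have hsubG : G ⊆ ((gam a b v u W).image (fun e => corner l₀ e.1)) ∩ G := by
          intro c hc
          rw [Finset.mem_inter]
          refine ⟨?_, hc⟩
          rw [hG, Finset.mem_image] at hc
          obtain ⟨z, hz, rfl⟩ := hc
          exact hNT z (Finset.mem_filter.1 hz).1
        have hdiam : ∀ e ∈ U (tileE l₀) G, ∀ e' ∈ U (tileE l₀) G,
            rho e.1 e'.1 ≤ 2 * (l₀ * w) + 4 * l₀ := by
          intro e he e' he'
          unfold U at he he'
          rw [Finset.mem_biUnion] at he he'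
          obtain ⟨c, hc, hce⟩ := he
          obtain ⟨c', hc', hce'⟩ := he'
          rw [hG, Finset.mem_image] at hc hc'
          obtain ⟨z, hz, rfl⟩ := hc
          obtain ⟨z', hz', rfl⟩ := hc'
          obtain ⟨_, hz2⟩ := Finset.mem_filter.mp hz
          obtain ⟨_, hz2'⟩ := Finset.mem_filter.mp hz'
          have hgz : gr z = gr z' := hz2.trans hz2'.symm
          have r1 := rho_corner_le h0 e.1
          have r2 := rho_corner_le h0 e'.1
          rw [(Finset.mem_filter.1 hce).2] at r1
          rw [(Finset.mem_filter.1 hce').2] at r2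
          have r3 : rho (cz z) (cz z') ≤ 2 * (l₀ * w) := by
            have e1 := (pl2_min (N := N) _).trans (pl2_abs h0 z.1.isLt z'.1.isLt).le
            have e2 := (pl2_min (N := N) _).trans (pl2_abs h0 z.2.isLt z'.2.isLt).le
            rw [← hdiff1 z z' hgz] at e1
            rw [← hdiff2 z z' hgz] at e2
            unfold rho
            omega
          have t1 := rho_triangle e.1 (cz z) e'.1
          have t2 := rho_triangle (cz z) (cz z') e'.1
          rw [rho_comm e'.1 (cz z')] at r2
          omega
        have hT := touched_window ha hab h0 (h.trans hLN) v u W G (2 * (l₀ * w) + 4 * l₀) hdiam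
        have hle : ((Zs.filter (fun z => gr z = g)).card : ℝ) ≤
            ((((gam a b v u W).image (fun e => corner l₀ e.1)) ∩ G).card : ℝ) := by
          rw [hcG]
          exact_mod_cast Finset.card_le_card hsubG
        refine hle.trans (hT.trans ?_)
        have hl0r : (1 : ℝ) ≤ l₀ := by exact_mod_cast h0
        have hw1 : (1 : ℝ) ≤ w := by exact_mod_cast hw
        have hba : 1 ≤ b / a := by
          rw [one_le_div ha]
          exact hab.le
        have e1 : b / a * ((((2 * (l₀ * w) + 4 * l₀ : ℕ)) : ℝ) + 2) / l₀ ≤ b / a * (8 * w) := by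
          rw [div_le_iff₀ (by linarith)]
          have : ((((2 * (l₀ * w) + 4 * l₀ : ℕ)) : ℝ) + 2) ≤ 8 * w * l₀ := by
            push_cast
            nlinarith
          calc b / a * ((((2 * (l₀ * w) + 4 * l₀ : ℕ)) : ℝ) + 2) ≤ b / a * (8 * w * l₀) :=
                mul_le_mul_of_nonneg_left this (by linarith)
            _ = b / a * (8 * w) * l₀ := by ring
        have e2 : (1 : ℝ) ≤ b / a * w := by nlinarith
        linarith
      have hsum : Zs.card = ∑ g : Bool × Bool, (Zs.filter (fun z => gr z = g)).card :=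
        Finset.card_eq_sum_card_fiberwise (f := gr) (t := univ) (fun z _ => Finset.mem_univ _)
      rw [hsum]
      push_cast
      calc ∑ g : Bool × Bool, ((Zs.filter (fun z => gr z = g)).card : ℝ)
          ≤ ∑ g : Bool × Bool, 81 * (b / a) * w := Finset.sum_le_sum fun g _ => hgroup g
        _ = 4 * (81 * (b / a) * w) := by
          rw [Finset.sum_const, Finset.card_univ, nsmul_eq_mul]
          simp
    unfold Ex
    rw [← Finset.sum_filter, Finset.sum_const, nsmul_eq_mul, mul_one, Fintype.card_prod,
      Fintype.card_fin]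
    rw [div_le_iff₀ (by push_cast; positivity)]
    refine hcard.trans (le_of_eq ?_)
    push_cast
    field_simp
    ring
  calc Ex (fun θ : Edge N → Bool × Bool => Ex (fun z : Fin w × Fin w =>
        if ev z (wz θ z) then (1 : ℝ) else 0))
      ≤ Ex (fun _ : Edge N → Bool × Bool => 324 * (b / a) / w) := Ex_mono key
    _ = 324 * (b / a) / w := Ex_const _

end

end Pool.FPV
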