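import Pool.Agent.FPP.HIG
import Pool.Agent.FPV.PL2

/-!
Module HI2: the main inequality for a fixed starting point, with the hub planting bound.
-/

set_option autoImplicit false

noncomputable section

namespace Pool.FPV

open Finset Pool.FPP

section

variable {N : ℕ} [NeZero N] {a b : ℝ}

open Pool.FPP.HIG in
/-- THE MAIN INEQUALITY for a fixed starting point `u`: no near tie part -/
theorem high2 (ha : 0 < a) (hab : a < b) {l l₀ L w d : ℕ} (hl : 0 < l) (hl₀ : l ∣ l₀)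
    (h0 : 0 < l₀) (h : l₀ ∣ L) (hL : 0 < L) (hLN : L ∣ N) (hw : 0 < w) (hwL : 2 * (l₀ * w) ≤ L)
    (v u : Vtx N) (t₀ T r lam : ℝ) (ht : b ^ 2 / a * d * (2 * l + 2) ≤ t₀) (ht0 : 0 < t₀)
    (htT : t₀ ≤ T) (htr : T ≤ r * t₀) (hlam : 0 ≤ lam)
    (hlam3 : 32 ^ d * r ^ 2 * (324 * (b / a) / w) ≤ lam ^ 3) :
    (EE (FF a b v u) L - EE (FF a b v u) l / (d + 1)) / 2 - Err a b v u l₀ w L ≤
      8 * (t₀ ^ 2 * (9 * (b / a * rho 0 v / l₀ + 1)) +
        608 * (b - a) ^ 4 * (b / a) ^ 2 * l₀ * rho 0 v / T ^ 2 +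
        lam * EE (FF a b v u) l₀) := by
  classical
  haveI : Nonempty (Fin w × Fin w) := ⟨(⟨0, hw⟩, ⟨0, hw⟩)⟩
  have hlL : l ∣ L := hl₀.trans h
  have hTpos : 0 < T := lt_of_lt_of_le ht0 htT
  have hb : 0 < b := ha.trans hab
  have hwr : (0 : ℝ) < w := by exact_mod_cast hw
  set t : ℕ → ℝ := fun i => if i = 0 then t₀ else T with hteq
  have et0 : t 0 = t₀ := by simp [hteq]
  have et1 : t 1 = T := by simp [hteq]
  -- the parts as functions of a tile and a pair configuration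
  set Φ1 : Vtx N → (Edge N → Bool × Bool) → ℝ := fun c w2 =>
    if inc (tileE l₀ c) (FF a b v u) w2 ≤ t 0 then inc (tileE l₀ c) (FF a b v u) w2 ^ 2 else 0
    with hΦ1
  set Φ2 : Vtx N → (Edge N → Bool × Bool) → ℝ := fun c w2 =>
    if t 1 < inc (tileE l₀ c) (FF a b v u) w2 then inc (tileE l₀ c) (FF a b v u) w2 ^ 2 else 0
    with hΦ2
  set Φ3 : Vtx N → (Edge N → Bool × Bool) → ℝ := fun c w2 =>
    inc (tileE l₀ c) (FF a b v u) w2 ^ 2 with hΦ3
  -- the inequality for one pair of tiles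
  have key : ∀ C ∈ tiles N L, ∀ c₀ ∈ subTiles l₀ L C,
      Ex (fun ω => Pd (tileE l) (subTiles l L C) d
        (fun ω' => gav a b v u l₀ w L C ω' - av (tileE l₀ c₀) (gav a b v u l₀ w L C) ω') ω ^ 2) ≤
      8 * (
        Ex (fun z : Fin w × Fin w => Ex (fun w2 : Edge N → Bool × Bool =>
          Φ1 (innV L C (l₀ * z.1, l₀ * z.2) c₀) (fun e => (sg L C (l₀ * z.1, l₀ * z.2) (fstc w2) e,
            sg L C (l₀ * z.1, l₀ * z.2) (sndc w2) e))))
        + Ex (fun z : Fin w × Fin w => Ex (fun w2 : Edge N → Bool × Bool =>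
          Φ2 (innV L C (l₀ * z.1, l₀ * z.2) c₀) (fun e => (sg L C (l₀ * z.1, l₀ * z.2) (fstc w2) e,
            sg L C (l₀ * z.1, l₀ * z.2) (sndc w2) e))))
        + lam * Ex (fun z : Fin w × Fin w => Ex (fun w2 : Edge N → Bool × Bool =>
          Φ3 (innV L C (l₀ * z.1, l₀ * z.2) c₀) (fun e => (sg L C (l₀ * z.1, l₀ * z.2) (fstc w2) e,
            sg L C (l₀ * z.1, l₀ * z.2) (sndc w2) e))))) := by
    intro C hCt c₀ hc₀
    have hC : corner L C = C := by simpa [tiles] using hCt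
    have hsub := subTiles_subset hl hl₀ h0 h hL C c₀ hc₀
    have hU1 := U_subTiles hl hl₀ h0 c₀
    have hpl := planting2 ha hab hl hl₀ h0 h hL hLN hw hwL v u C hC c₀ hc₀ t₀ ht ht0
    have hpar := parts_ineq (ι := Edge N) (α := Bool) (tileE l) (tileE_disjoint l)
      (subTiles l L C) (subTiles l l₀ c₀) hsub d
      (Z := Fin w × Fin w) (fun z ω => FF a b v u (sg L C (l₀ * z.1, l₀ * z.2) ω))
      (fun _ _ => True)
      1 t r (324 * (b / a) / w) lam (by rw [et0]; exact ht0)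
      (by
        intro i hi
        have : i = 0 := by omega
        subst this
        rw [et0]
        exact htT.trans_eq et1.symm)
      (by
        intro i hi
        have : i = 0 := by omega
        subst this
        rw [et0]
        exact (le_of_eq et1).trans htr) (by positivity) hlam hlam3
      (by
        intro S hS hSd w2
        rw [hU1, et0]
        simp only [and_true]
        exact hpl S hS hSd w2)
    rw [hU1] at hpar
    have hinc : ∀ (z : Fin w × Fin w) (w2 : Edge N → Bool × Bool),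
        inc (tileE l₀ c₀) (fun ω => FF a b v u (sg L C (l₀ * z.1, l₀ * z.2) ω)) w2 =
        inc (tileE l₀ (innV L C (l₀ * z.1, l₀ * z.2) c₀)) (FF a b v u)
        (fun e => (sg L C (l₀ * z.1, l₀ * z.2) (fstc w2) e,
          sg L C (l₀ * z.1, l₀ * z.2) (sndc w2) e)) := fun z w2 =>
      inc_sg h0 h hL hLN C hC z.1 z.2 (FF a b v u) c₀ hc₀ w2
    simp only [hinc, not_true_eq_false, and_false, if_false, Ex_const, add_zero] at hpar
    refine hpar.trans (le_of_eq ?_)
    norm_num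
    rfl
  -- sum over the small tiles and the big tiles
  have hsum : ∀ Φ : Vtx N → (Edge N → Bool × Bool) → ℝ,
      ∑ C ∈ tiles N L, ∑ c₀ ∈ subTiles l₀ L C,
        Ex (fun z : Fin w × Fin w => Ex (fun w2 : Edge N → Bool × Bool =>
          Φ (innV L C (l₀ * z.1, l₀ * z.2) c₀) (fun e => (sg L C (l₀ * z.1, l₀ * z.2) (fstc w2) e,
            sg L C (l₀ * z.1, l₀ * z.2) (sndc w2) e)))) = ∑ c ∈ tiles N l₀, Ex (Φ c) := by
    intro Φ
    rw [← sum_tiles_nest h0 h hL]
    refine Finset.sum_congr rfl ?_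
    intro C hCt
    have hC : corner L C = C := by simpa [tiles] using hCt
    exact transport h0 h hL hLN hw C hC Φ
  have hlow : (EE (FF a b v u) L - EE (FF a b v u) l / (d + 1)) / 2 - Err a b v u l₀ w L ≤
      ∑ C ∈ tiles N L, ∑ c₀ ∈ subTiles l₀ L C, Ex (fun ω => Pd (tileE l) (subTiles l L C) d
        (fun ω' => gav a b v u l₀ w L C ω' - av (tileE l₀ c₀) (gav a b v u l₀ w L C) ω') ω ^ 2) := by
    have h1 := Finset.sum_le_sum (s := tiles N L) (fun C _ =>
      lower (d := d) hl hl₀ h0 h hL C (FF a b v u) (gav a b v u l₀ w L C))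
    refine le_trans (le_of_eq ?_) h1
    rw [Finset.sum_sub_distrib, ← Finset.sum_div, Finset.sum_sub_distrib, ← Finset.sum_div,
      sum_tiles_nest hl hlL hL (fun c => Ex (fun ω => (FF a b v u ω - av (tileE l c) (FF a b v u) ω) ^ 2))]
    rfl
  refine hlow.trans ?_
  refine (Finset.sum_le_sum (fun C hC => Finset.sum_le_sum (fun c₀ hc₀ => key C hC c₀ hc₀))).trans ?_
  simp only [← Finset.mul_sum, Finset.sum_add_distrib]
  rw [hsum Φ1, hsum Φ2, hsum Φ3]
  have e1 : ∑ c ∈ tiles N l₀, Ex (Φ1 c) ≤ t₀ ^ 2 * (9 * (b / a * rho 0 v / l₀ + 1)) := by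
    have := small_part ha hab h0 (h.trans hLN) v u t₀ ht0
    simp only [hΦ1, et0]
    exact this
  have e2 : ∑ c ∈ tiles N l₀, Ex (Φ2 c) ≤
      608 * (b - a) ^ 4 * (b / a) ^ 2 * l₀ * rho 0 v / T ^ 2 := by
    have := large_part ha hab h0 v u T hTpos
    simp only [hΦ2, et1]
    exact this
  have e3 : ∑ c ∈ tiles N l₀, Ex (Φ3 c) = EE (FF a b v u) l₀ := sum_inc_sq v u l₀
  rw [e3]
  linarith

end

end Pool.FPV
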