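import Pool.Agent.FPV.WIN
import Pool.Agent.FPP.NTC

/-!
Module HUB: if changing the tile `c` raises the passage time by more than the effect of the planted
tiles, then the geodesic of the unplanted environment passes through `c`.
-/

set_option autoImplicit false

noncomputable section

namespace Pool.FPV

open Finset Pool.FPP

section

variable {N : ℕ} [NeZero N] {a b : ℝ}

/-- changing several tiles -/
theorem pl2_dst (ha : 0 < a) (hab : a < b) {l : ℕ} (hl : 0 < l) (x y : Vtx N)
    (S : Finset (Vtx N)) : ∀ (ω ω' : Edge N → Bool), (∀ e ∉ U (tileE l) S, ω e = ω' e) →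
      dst a b ω' x y ≤ dst a b ω x y + S.card * (b * (2 * l + 2)) := by
  induction S using Finset.induction_on with
  | empty =>
    intro ω ω' h
    have : ω = ω' := by
      funext e
      refine h e ?_
      unfold U
      rw [Finset.biUnion_empty]
      exact Finset.notMem_empty e
    rw [this]
    simp
  | insert s S hs ih =>
    intro ω ω' h
    set ω'' : Edge N → Bool := fun e => if e ∈ tileE l s then ω' e else ω e with hω''
    have h1 : dst a b ω'' x y ≤ dst a b ω x y + b * (((2 * l : ℕ) : ℝ) + 2) := by
      refine dst_change ha hab ω ω'' (tileE l s) (2 * l) (tileE_diam hl s) (fun e he => ?_) x y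
      simp only [hω'']
      rw [if_neg he]
    have h2 : dst a b ω' x y ≤ dst a b ω'' x y + S.card * (b * (2 * l + 2)) := by
      refine ih ω'' ω' (fun e he => ?_)
      simp only [hω'']
      by_cases hm : e ∈ tileE l s
      · rw [if_pos hm]
      · rw [if_neg hm]
        refine h e ?_
        unfold U at he ⊢
        rw [Finset.biUnion_insert, Finset.mem_union]
        rintro (h3 | h3)
        · exact hm h3
        · exact he h3
    rw [Finset.card_insert_of_notMem hs]
    push_cast at h1 ⊢
    linarith

omit [NeZero N] in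
/-- cost of a list without repetitions in an environment changed in a set -/
theorem pl2_cost (hab : a < b) (ω ω' : Edge N → Bool) (A : Finset (Edge N))
    (h : ∀ e ∉ A, ω e = ω' e) (l : List (Edge N)) (hn : l.Nodup) :
    cost a b ω' l ≤ cost a b ω l + (b - a) * (l.toFinset ∩ A).card := by
  classical
  induction l with
  | nil => simp [cost_nil]
  | cons e l ih =>
    rw [List.nodup_cons] at hn
    have h1 := ih hn.2
    rw [cost_cons, cost_cons]
    have he : e ∉ l.toFinset := fun hh => hn.1 (List.mem_toFinset.1 hh)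
    by_cases hA : e ∈ A
    · have h2 : ((e :: l).toFinset ∩ A).card = (l.toFinset ∩ A).card + 1 := by
        rw [List.toFinset_cons, Finset.insert_inter_of_mem hA, Finset.card_insert_of_notMem]
        exact fun hh => he (Finset.mem_inter.1 hh).1
      have h3 : wt a b ω' e ≤ wt a b ω e + (b - a) := by
        unfold wt
        split_ifs <;> linarith
      rw [h2]
      push_cast
      linarith
    · have h2 : ((e :: l).toFinset ∩ A).card = (l.toFinset ∩ A).card := by
        rw [List.toFinset_cons, Finset.insert_inter_of_notMem hA]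
      have h3 : wt a b ω' e = wt a b ω e := by
        unfold wt
        rw [h e hA]
      rw [h2, h3]
      linarith

/-- number of edges of the geodesic in several tiles -/
theorem pl2_gam (ha : 0 < a) (hab : a < b) {l : ℕ} (hl : 0 < l) (v u : Vtx N)
    (ω : Edge N → Bool) (S : Finset (Vtx N)) :
    ((gam a b v u ω ∩ U (tileE l) S).card : ℝ) ≤ S.card * (b / a * (2 * l + 2)) := by
  have h1 : gam a b v u ω ∩ U (tileE l) S = S.biUnion (fun c => gam a b v u ω ∩ tileE l c) := by
    unfold U
    rw [Finset.inter_biUnion]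
  have h2 : (gam a b v u ω ∩ U (tileE l) S).card ≤
      ∑ c ∈ S, (gam a b v u ω ∩ tileE l c).card := by
    rw [h1]
    exact Finset.card_biUnion_le
  have h3 : ∀ c ∈ S, (((gam a b v u ω ∩ tileE l c).card : ℕ) : ℝ) ≤ b / a * (2 * l + 2) := by
    intro c _
    have h4 := gam_inter ha hab v u ω (tileE l c) (2 * l) (tileE_diam hl c)
    rw [div_mul_eq_mul_div, le_div_iff₀ ha]
    push_cast at h4
    linarith
  calc ((gam a b v u ω ∩ U (tileE l) S).card : ℝ)
      ≤ ((∑ c ∈ S, (gam a b v u ω ∩ tileE l c).card : ℕ) : ℝ) := by exact_mod_cast h2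
    _ = ∑ c ∈ S, (((gam a b v u ω ∩ tileE l c).card : ℕ) : ℝ) := by push_cast; rfl
    _ ≤ ∑ c ∈ S, b / a * (2 * l + 2) := Finset.sum_le_sum h3
    _ = S.card * (b / a * (2 * l + 2)) := by rw [Finset.sum_const, nsmul_eq_mul]

/-- HUB: if `ω` differs from `W` in the tiles of `S` only and changing the tile `c` raises the
passage time of `ω` by more than the effect of these tiles, then the geodesic of `W` meets `c` -/
theorem pl2_hub (ha : 0 < a) (hab : a < b) {l l₀ : ℕ} (hl : 0 < l) (v u c : Vtx N)
    (S : Finset (Vtx N)) (W ω ω' : Edge N → Bool) (hW : ∀ e ∉ U (tileE l) S, W e = ω e)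
    (hω : ∀ e ∉ tileE l₀ c, ω e = ω' e) (t : ℝ)
    (ht : S.card * (b ^ 2 / a * (2 * l + 2)) ≤ t)
    (hlt : FF a b v u ω + t < FF a b v u ω') :
    (gam a b v u W ∩ tileE l₀ c).Nonempty := by
  by_contra hne
  rw [Finset.not_nonempty_iff_eq_empty] at hne
  have hav : ∀ e ∈ geo a b v u W, e ∉ tileE l₀ c := by
    intro e he heA
    have : e ∈ gam a b v u W ∩ tileE l₀ c := by
      rw [Finset.mem_inter]
      exact ⟨List.mem_toFinset.2 he, heA⟩
    rw [hne] at this
    simp at this
  have hw := geo_walk ha hab v u W
  have hc := geo_cost ha hab v u W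
  have hnd := geod_nodup ha hab hw (by rw [hc]; rfl)
  have h1 := pl2_cost hab W ω (U (tileE l) S) hW (geo a b v u W) hnd
  have h2 := pl2_gam ha hab hl v u W S
  have h3 : (geo a b v u W).toFinset = gam a b v u W := rfl
  rw [h3, hc] at h1
  have h4 : FF a b v u ω' ≤ cost a b ω' (geo a b v u W) := dst_le_cost ha hab hw
  rw [chg_cost_congr ω ω' (tileE l₀ c) hω (geo a b v u W) hav] at h4
  have h5 : FF a b v u W ≤ FF a b v u ω + S.card * (b * (2 * l + 2)) :=
    pl2_dst ha hab hl u (u + v) S ω W (fun e he => (hW e he).symm)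
  have h6 : (b - a) * ((gam a b v u W ∩ U (tileE l) S).card : ℝ) ≤
      (b - a) * (S.card * (b / a * (2 * l + 2))) :=
    mul_le_mul_of_nonneg_left h2 (by linarith)
  have h7 : (b - a) * (S.card * (b / a * (2 * l + 2))) + S.card * (b * (2 * l + 2)) =
      S.card * (b ^ 2 / a * (2 * l + 2)) := by
    field_simp
    ring
  linarith

end

end Pool.FPV
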