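import Pool.Agent.FPP.ITE
import Pool.Agent.FPV.HI2

/-!
Module LO2: the local step: from scale `2 ^ (4 h)` to scale `2 ^ (60 h)` the block energy gains a
factor `5 / h`.  Scales: y = 2^h, l = y^4, l0 = w = y^12, L = y^60, d = h / 5, t0 = (b^2/a) y^5,
T = (b^2/a) y^8, lam = 324 (b/a) / y.
-/

set_option autoImplicit false

noncomputable section

namespace Pool.FPV

open Finset Pool.FPP

/-- the error term at the scales of the local step -/
theorem lo2_err {N : ℕ} [NeZero N] {a b : ℝ} (ha : 0 < a) (hab : a < b) (h : ℕ)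
    (hLN : 2 ^ (60 * h) ∣ N) (hh : 1 ≤ h) (v : Vtx N) (hn : 2 ^ (60 * h) ≤ rho 0 v) :
    Ex (fun u : Vtx N => Err a b v u (2 ^ (12 * h)) (2 ^ (12 * h)) (2 ^ (60 * h))) ≤
      (50 * (b ^ 2 / a) + 8 * b + 1300 * (b - a) ^ 4 * (b / a) ^ 2) * (rho 0 v : ℝ) / 2 ^ h := by
  have hb : 0 < b := ha.trans hab
  set y : ℝ := (2 : ℝ) ^ h with hy
  have hy1 : 1 ≤ y := one_le_pow₀ (by norm_num)
  have hy0 : 0 < y := by linarith
  have hL : (2 : ℕ) ^ (60 * h) > 0 := by positivity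
  have hlw : 2 ^ (12 * h) * 2 ^ (12 * h) = 2 ^ (24 * h) := by
    rw [← pow_add]; congr 1; ring
  have hm : 2 * (2 ^ (12 * h) * 2 ^ (12 * h)) ≤ 2 ^ (60 * h) := by
    rw [hlw]
    calc 2 * 2 ^ (24 * h) = 2 ^ (24 * h + 1) := by rw [pow_succ]; ring
      _ ≤ 2 ^ (60 * h) := Nat.pow_le_pow_right (by norm_num) (by omega)
  have key := err_avg (N := N) ha hab (l := 2 ^ (12 * h)) (w := 2 ^ (12 * h)) (L := 2 ^ (60 * h))
    (by positivity) (by positivity) hL hLN hm v (y ^ 32) (by positivity)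
  refine key.trans ?_
  set n : ℝ := (rho 0 v : ℝ) with hnn
  have hyn : y ^ 60 ≤ n := by
    have : ((2 ^ (60 * h) : ℕ) : ℝ) ≤ n := by rw [hnn]; exact_mod_cast hn
    rw [hy, ← pow_mul, mul_comm h 60]
    push_cast at this
    exact this
  have hn0 : 0 < n := lt_of_lt_of_le (by positivity) hyn
  have hLc : ((2 ^ (60 * h) : ℕ) : ℝ) = y ^ 60 := by
    rw [hy, ← pow_mul, mul_comm h 60]; push_cast; rfl
  have hmc : ((2 ^ (12 * h) * 2 ^ (12 * h) : ℕ) : ℝ) = y ^ 24 := by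
    rw [hlw, hy, ← pow_mul, mul_comm h 24]; push_cast; rfl
  rw [hmc, hLc]
  -- powers
  have p1 : y ^ 32 * (y ^ 24 / y ^ 60) ≤ 1 / y := by
    rw [mul_div_assoc', div_le_div_iff₀ (by positivity) hy0]
    have : y ^ 57 ≤ y ^ 60 := pow_le_pow_right₀ hy1 (by norm_num)
    calc y ^ 32 * y ^ 24 * y = y ^ 57 := by ring
      _ ≤ y ^ 60 := this
      _ = 1 * y ^ 60 := by ring
  have p2 : y ^ 32 * y ^ 24 ≤ n / y := by
    rw [le_div_iff₀ hy0]
    calc y ^ 32 * y ^ 24 * y = y ^ 57 := by ring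
      _ ≤ y ^ 60 := pow_le_pow_right₀ hy1 (by norm_num)
      _ ≤ n := hyn
  have p3 : y ^ 60 / (y ^ 32) ^ 2 ≤ 1 / y := by
    rw [div_le_div_iff₀ (by positivity) hy0]
    calc y ^ 60 * y = y ^ 61 := by ring
      _ ≤ y ^ 64 := pow_le_pow_right₀ hy1 (by norm_num)
      _ = 1 * (y ^ 32) ^ 2 := by ring
  have q1 : y ^ 32 * (50 * (b ^ 2 / a) * (y ^ 24 / y ^ 60) * n) ≤ 50 * (b ^ 2 / a) * (n / y) := by
    calc y ^ 32 * (50 * (b ^ 2 / a) * (y ^ 24 / y ^ 60) * n)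
        = (50 * (b ^ 2 / a) * n) * (y ^ 32 * (y ^ 24 / y ^ 60)) := by ring
      _ ≤ (50 * (b ^ 2 / a) * n) * (1 / y) := mul_le_mul_of_nonneg_left p1 (by positivity)
      _ = _ := by ring
  have q2 : y ^ 32 * (8 * b * y ^ 24) ≤ 8 * b * (n / y) := by
    calc y ^ 32 * (8 * b * y ^ 24) = 8 * b * (y ^ 32 * y ^ 24) := by ring
      _ ≤ _ := mul_le_mul_of_nonneg_left p2 (by positivity)
  have q3 : 1300 * (b - a) ^ 4 * (b / a) ^ 2 * y ^ 60 * n / (y ^ 32) ^ 2 ≤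
      1300 * (b - a) ^ 4 * (b / a) ^ 2 * (n / y) := by
    calc 1300 * (b - a) ^ 4 * (b / a) ^ 2 * y ^ 60 * n / (y ^ 32) ^ 2
        = (1300 * (b - a) ^ 4 * (b / a) ^ 2 * n) * (y ^ 60 / (y ^ 32) ^ 2) := by ring
      _ ≤ (1300 * (b - a) ^ 4 * (b / a) ^ 2 * n) * (1 / y) :=
          mul_le_mul_of_nonneg_left p3 (by positivity)
      _ = _ := by ring
  rw [mul_add]
  calc y ^ 32 * (50 * (b ^ 2 / a) * (y ^ 24 / y ^ 60) * n) + y ^ 32 * (8 * b * y ^ 24) +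
        1300 * (b - a) ^ 4 * (b / a) ^ 2 * y ^ 60 * n / (y ^ 32) ^ 2
      ≤ 50 * (b ^ 2 / a) * (n / y) + 8 * b * (n / y) +
        1300 * (b - a) ^ 4 * (b / a) ^ 2 * (n / y) := by linarith
    _ = _ := by ring

/-- THE LOCAL STEP -/
theorem local2 (a b : ℝ) (ha : 0 < a) (hab : a < b) :
    ∃ K : ℝ, 0 ≤ K ∧ ∀ h : ℕ, 1 ≤ h → ∀ (N : ℕ) [NeZero N], 2 ^ (60 * h) ∣ N → ∀ v : Vtx N,
      2 ^ (60 * h) ≤ rho 0 v →
      EB a b v (2 ^ (60 * h)) ≤
        5 / (h : ℝ) * EB a b v (2 ^ (4 * h)) + K * (rho 0 v : ℝ) / 2 ^ h := by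
  have hb : 0 < b := ha.trans hab
  have hba0 : 0 < b - a := by linarith
  have hba : 1 ≤ b / a := by
    rw [one_le_div ha]
    exact hab.le
  set κ : ℝ := b ^ 2 / a with hκ
  have hκ0 : 0 < κ := by positivity
  set G : ℝ := 324 * (b / a) with hG
  have hG1 : 1 ≤ G := by linarith
  set E : ℝ := 50 * κ + 8 * b + 1300 * (b - a) ^ 4 * (b / a) ^ 2 with hE
  have hE0 : 0 ≤ E := by positivity
  set B : ℝ := (b - a) ^ 2 * (b / a) with hB
  have hB0 : 0 ≤ B := by positivity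
  set K₁ : ℝ := κ ^ 2 * (9 * (b / a + 1)) with hK₁
  set K₂ : ℝ := 608 * (b - a) ^ 4 * (b / a) ^ 2 / κ ^ 2 with hK₂
  have hK₁0 : 0 ≤ K₁ := by positivity
  have hK₂0 : 0 ≤ K₂ := by positivity
  refine ⟨2 * E + 16 * (K₁ + K₂ + G * B), by positivity, ?_⟩
  intro h hh N _ hLN v hn
  set y : ℝ := (2 : ℝ) ^ h with hy
  have hy1 : 1 ≤ y := one_le_pow₀ (by norm_num)
  have hy0 : 0 < y := by linarith
  set n : ℝ := (rho 0 v : ℝ) with hnn
  have hyn : y ^ 60 ≤ n := by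
    have : ((2 ^ (60 * h) : ℕ) : ℝ) ≤ n := by rw [hnn]; exact_mod_cast hn
    rw [hy, ← pow_mul, mul_comm h 60]
    push_cast at this
    exact this
  have hn0 : 0 < n := lt_of_lt_of_le (by positivity) hyn
  have cl : ((2 ^ (4 * h) : ℕ) : ℝ) = y ^ 4 := by
    rw [hy, ← pow_mul, mul_comm h 4]; push_cast; rfl
  have cl0 : ((2 ^ (12 * h) : ℕ) : ℝ) = y ^ 12 := by
    rw [hy, ← pow_mul, mul_comm h 12]; push_cast; rfl
  set d : ℕ := h / 5 with hd
  have hd5 : 5 * d ≤ h := Nat.mul_div_le h 5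
  have hdh : (h : ℝ) / 5 ≤ (d : ℝ) + 1 := by
    have : h < 5 * (d + 1) := by omega
    have h2 : (h : ℝ) < 5 * ((d : ℝ) + 1) := by exact_mod_cast this
    linarith
  have hh0 : (0 : ℝ) < h := by exact_mod_cast hh
  have hhy : (h : ℝ) ≤ y := by
    rw [hy]
    exact_mod_cast (Nat.lt_two_pow_self (n := h)).le
  -- threshold
  have ht : κ * d * (2 * ((2 ^ (4 * h) : ℕ) : ℝ) + 2) ≤ κ * y ^ 5 := by
    rw [cl, mul_assoc]
    refine mul_le_mul_of_nonneg_left ?_ hκ0.le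
    have h1 : (d : ℝ) ≤ y / 5 := by
      have : 5 * (d : ℝ) ≤ h := by exact_mod_cast hd5
      linarith
    have h2 : 2 * y ^ 4 + 2 ≤ 4 * y ^ 4 := by
      have : 1 ≤ y ^ 4 := one_le_pow₀ hy1
      linarith
    calc (d : ℝ) * (2 * y ^ 4 + 2) ≤ (y / 5) * (4 * y ^ 4) :=
          mul_le_mul h1 h2 (by positivity) (by positivity)
      _ ≤ y ^ 5 := by
          have : 0 ≤ y ^ 5 := by positivity
          nlinarith
  have hpow : (32 : ℝ) ^ d ≤ y := by
    rw [hy]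
    calc (32 : ℝ) ^ d = 2 ^ (5 * d) := by rw [pow_mul]; norm_num
      _ ≤ 2 ^ h := pow_le_pow_right₀ (by norm_num) hd5
  have hlam3 : 32 ^ d * (y ^ 3) ^ 2 * (324 * (b / a) / ((2 ^ (12 * h) : ℕ) : ℝ)) ≤ (G / y) ^ 3 := by
    rw [cl0, ← hG]
    have hG3 : G ≤ G ^ 3 := by
      have h1 : 1 ≤ G ^ 2 := one_le_pow₀ hG1
      nlinarith
    calc (32 : ℝ) ^ d * (y ^ 3) ^ 2 * (G / y ^ 12) ≤ y * (y ^ 3) ^ 2 * (G / y ^ 12) := by
          gcongr
      _ = G / y ^ 5 := by field_simp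
      _ ≤ G ^ 3 / y ^ 5 := div_le_div_of_nonneg_right hG3 (by positivity)
      _ ≤ G ^ 3 / y ^ 3 := by
          apply div_le_div_of_nonneg_left (by positivity) (by positivity)
          exact pow_le_pow_right₀ hy1 (by norm_num)
      _ = (G / y) ^ 3 := by rw [div_pow]
  have hdvd1 : 2 ^ (4 * h) ∣ 2 ^ (12 * h) := pow_dvd_pow 2 (by omega)
  have hdvd2 : 2 ^ (12 * h) ∣ 2 ^ (60 * h) := pow_dvd_pow 2 (by omega)
  have hwL : 2 * (2 ^ (12 * h) * 2 ^ (12 * h)) ≤ 2 ^ (60 * h) := by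
    calc 2 * (2 ^ (12 * h) * 2 ^ (12 * h)) = 2 ^ (24 * h + 1) := by
          rw [← pow_add, pow_succ]; ring_nf
      _ ≤ 2 ^ (60 * h) := Nat.pow_le_pow_right (by norm_num) (by omega)
  -- the main inequality for every starting point
  have hu : ∀ u : Vtx N, (EE (FF a b v u) (2 ^ (60 * h)) -
      EE (FF a b v u) (2 ^ (4 * h)) / (d + 1)) / 2 -
        Err a b v u (2 ^ (12 * h)) (2 ^ (12 * h)) (2 ^ (60 * h)) ≤
      8 * (K₁ + K₂ + G * B) * (n / y) := by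
    intro u
    have h1 := high2 (N := N) (d := d) ha hab (l := 2 ^ (4 * h)) (l₀ := 2 ^ (12 * h))
      (L := 2 ^ (60 * h)) (w := 2 ^ (12 * h)) (by positivity) hdvd1 (by positivity) hdvd2
      (by positivity) hLN (by positivity) hwL v u (κ * y ^ 5) (κ * y ^ 8) (y ^ 3) (G / y) ht
      (by positivity)
      (mul_le_mul_of_nonneg_left (pow_le_pow_right₀ hy1 (by norm_num)) hκ0.le)
      (le_of_eq (by ring)) (by positivity) hlam3
    refine h1.trans ?_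
    have e1 : (κ * y ^ 5) ^ 2 * (9 * (b / a * (rho 0 v : ℝ) / ((2 ^ (12 * h) : ℕ) : ℝ) + 1)) ≤
        K₁ * (n / y) := by
      rw [cl0, ← hnn]
      have p1 : y ^ 10 * (b / a * n / y ^ 12) ≤ b / a * (n / y) := by
        have : y ^ 10 * (b / a * n / y ^ 12) = b / a * (n / y ^ 2) := by
          field_simp
        rw [this]
        refine mul_le_mul_of_nonneg_left ?_ (by positivity)
        apply div_le_div_of_nonneg_left hn0.le hy0
        calc y = y ^ 1 := (pow_one y).symm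
          _ ≤ y ^ 2 := pow_le_pow_right₀ hy1 (by norm_num)
      have p2 : y ^ 10 ≤ n / y := by
        rw [le_div_iff₀ hy0]
        calc y ^ 10 * y = y ^ 11 := by ring
          _ ≤ y ^ 60 := pow_le_pow_right₀ hy1 (by norm_num)
          _ ≤ n := hyn
      calc (κ * y ^ 5) ^ 2 * (9 * (b / a * n / y ^ 12 + 1))
          = κ ^ 2 * 9 * (y ^ 10 * (b / a * n / y ^ 12) + y ^ 10) := by ring
        _ ≤ κ ^ 2 * 9 * (b / a * (n / y) + n / y) :=
            mul_le_mul_of_nonneg_left (by linarith) (by positivity)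
        _ = K₁ * (n / y) := by rw [hK₁]; ring
    have e2 : 608 * (b - a) ^ 4 * (b / a) ^ 2 * ((2 ^ (12 * h) : ℕ) : ℝ) * (rho 0 v : ℝ) /
        (κ * y ^ 8) ^ 2 ≤ K₂ * (n / y) := by
      rw [cl0, ← hnn]
      calc 608 * (b - a) ^ 4 * (b / a) ^ 2 * y ^ 12 * n / (κ * y ^ 8) ^ 2
          = K₂ * (n / y ^ 4) := by
            rw [hK₂]
            field_simp
        _ ≤ K₂ * (n / y) := by
            refine mul_le_mul_of_nonneg_left ?_ hK₂0
            apply div_le_div_of_nonneg_left hn0.le hy0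
            calc y = y ^ 1 := (pow_one y).symm
              _ ≤ y ^ 4 := pow_le_pow_right₀ hy1 (by norm_num)
    have e3 : G / y * EE (FF a b v u) (2 ^ (12 * h)) ≤ G * B * (n / y) := by
      have h2 := EE_le ha hab v u (2 ^ (12 * h))
      rw [← hB, ← hnn] at h2
      calc G / y * EE (FF a b v u) (2 ^ (12 * h)) ≤ G / y * (B * n) :=
            mul_le_mul_of_nonneg_left h2 (by positivity)
        _ = G * B * (n / y) := by ring
    linarith
  -- average over the starting point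
  have h3 := ite_Ex_mono hu
  rw [ite_Ex_const, Ex_sub] at h3
  have h4 : Ex (fun u : Vtx N => (EE (FF a b v u) (2 ^ (60 * h)) -
      EE (FF a b v u) (2 ^ (4 * h)) / (d + 1)) / 2) =
      (EB a b v (2 ^ (60 * h)) - EB a b v (2 ^ (4 * h)) / (d + 1)) / 2 := by
    have h5 : (fun u : Vtx N => (EE (FF a b v u) (2 ^ (60 * h)) -
      EE (FF a b v u) (2 ^ (4 * h)) / (d + 1)) / 2) =
      fun u => (1 / 2 : ℝ) * EE (FF a b v u) (2 ^ (60 * h)) -
        (1 / 2 / ((d : ℝ) + 1)) * EE (FF a b v u) (2 ^ (4 * h)) := by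
      funext u
      ring
    rw [h5, Ex_sub, Ex_mul_left, Ex_mul_left]
    unfold EB
    ring
  rw [h4] at h3
  have h6 := lo2_err (N := N) ha hab h hLN hh v hn
  rw [← hκ, ← hE, ← hy, ← hnn] at h6
  have h7 : EB a b v (2 ^ (4 * h)) / ((d : ℝ) + 1) ≤ 5 / (h : ℝ) * EB a b v (2 ^ (4 * h)) := by
    have hnn2 : 0 ≤ EB a b v (2 ^ (4 * h)) := EB_nonneg _ _
    have hd1 : (0 : ℝ) < (d : ℝ) + 1 := by positivity
    rw [div_mul_eq_mul_div, div_le_div_iff₀ hd1 hh0]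
    nlinarith
  have h8 : E * n / y = E * (n / y) := by ring
  have h9 : (2 * E + 16 * (K₁ + K₂ + G * B)) * n / y =
      (2 * E + 16 * (K₁ + K₂ + G * B)) * (n / y) := by ring
  rw [h8] at h6
  rw [h9]
  linarith

end Pool.FPV
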