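import Pool.Agent.FPP.CHG
import Pool.Agent.FPP.BAL

/-!
Module WIN: a geodesic touches few tiles of a family of small diameter, because the whole part of
the geodesic between its first and its last visit of the family is short.
-/

set_option autoImplicit false

noncomputable section

namespace Pool.FPV

open Finset Pool.FPP

section

variable {N : ℕ} [NeZero N] {a b : ℝ}

/-- decomposition of a list with respect to the first and the last member with a property -/
theorem win_split {β : Type*} (P : β → Prop) (l : List β) :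
    (∀ e ∈ l, ¬ P e) ∨ ∃ (l1 l2 l3 : List β) (e e' : β), l = l1 ++ l2 ++ l3 ∧
      (∀ x ∈ l1, ¬ P x) ∧ (∀ x ∈ l3, ¬ P x) ∧ P e ∧ P e' ∧
      (∃ m, l2 = e :: m) ∧ (∃ m, l2 = m ++ [e']) := by
  induction l with
  | nil => left; simp
  | cons x l ih =>
    by_cases hx : P x
    · right
      rcases ih with h0 | ⟨l1, l2, l3, e, e', h1, h2, h3, h4, h5, ⟨m, hm⟩, ⟨m', hm'⟩⟩
      · exact ⟨[], [x], l, x, x, by simp, by simp, h0, hx, hx, ⟨[], rfl⟩, ⟨[], rfl⟩⟩
      · refine ⟨[], x :: (l1 ++ l2), l3, x, e', by simp [h1], by simp, h3, hx, h5, ⟨_, rfl⟩,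
          ⟨x :: (l1 ++ m'), ?_⟩⟩
        rw [hm']
        simp
    · rcases ih with h0 | ⟨l1, l2, l3, e, e', h1, h2, h3, h4, h5, h6, h7⟩
      · left
        intro y hy
        rcases List.mem_cons.1 hy with rfl | h
        · exact hx
        · exact h0 y h
      · right
        refine ⟨x :: l1, l2, l3, e, e', by simp [h1], ?_, h3, h4, h5, h6, h7⟩
        intro y hy
        rcases List.mem_cons.1 hy with rfl | h
        · exact hx
        · exact h2 y h

/-- the section of a geodesic between two visits of a set of diameter `D` is short -/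
theorem win_section (ha : 0 < a) (hab : a < b) (v u : Vtx N) (ω : Edge N → Bool)
    (A : Finset (Edge N)) (D : ℕ) (hA : ∀ e ∈ A, ∀ e' ∈ A, rho e.1 e'.1 ≤ D) :
    (∀ e ∈ geo a b v u ω, e ∉ A) ∨ ∃ (p q : Vtx N) (l2 : List (Edge N)), Walk p q l2 ∧
      a * l2.length ≤ b * (D + 2) ∧ ∀ e ∈ geo a b v u ω, e ∈ A → e ∈ l2 := by
  have hb : 0 < b := ha.trans hab
  rcases win_split (fun e : Edge N => e ∈ A) (geo a b v u ω) with h0 |
    ⟨l1, l2, l3, e, e', h1, h2, h3, h4, h5, ⟨m, hm⟩, ⟨m', hm'⟩⟩
  · exact Or.inl h0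
  · right
    have hw := geo_walk ha hab v u ω
    have hc : cost a b ω (geo a b v u ω) = dst a b ω u (u + v) := geo_cost ha hab v u ω
    rw [h1] at hw hc
    obtain ⟨q, hw12, hw3⟩ := hw.split
    obtain ⟨p, hw1, hw2⟩ := hw12.split
    have hg12 := (geod_split ha hab hw12 hw3 hc).1
    have hg2 := (geod_split ha hab hw1 hw2 hg12).2.1
    refine ⟨p, q, l2, hw2, ?_, ?_⟩
    · have hp : rho p e.1 ≤ 1 := by
        rw [hm] at hw2
        rcases hw2.cons_inv with ⟨h, _⟩ | ⟨h, _⟩
        · rw [h, rho_self]; omega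
        · rw [h, rho_comm]; exact rho_hd e
      have hq : rho e'.1 q ≤ 1 := by
        rw [hm'] at hw2
        obtain ⟨z, _, hz⟩ := hw2.split
        rcases hz.cons_inv with ⟨_, h⟩ | ⟨_, h⟩
        · rw [← h.nil_inv]; exact rho_hd e'
        · rw [← h.nil_inv, rho_self]; omega
      have hr : rho p q ≤ D + 2 := by
        have t1 := rho_triangle p e.1 q
        have t2 := rho_triangle e.1 e'.1 q
        have t3 := hA e h4 e' h5
        omega
      have hr' : (rho p q : ℝ) ≤ D + 2 := by exact_mod_cast hr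
      have c1 := cost_ge ha hab ω l2
      have c2 := dst_le_rho ha hab ω p q
      have c3 : b * (rho p q : ℝ) ≤ b * (D + 2) := mul_le_mul_of_nonneg_left hr' hb.le
      linarith
    · intro x hx hxA
      rw [h1, List.mem_append, List.mem_append] at hx
      rcases hx with (hx | hx) | hx
      · exact absurd hxA (h2 x hx)
      · exact hx
      · exact absurd hxA (h3 x hx)

/-- a geodesic touches few tiles of a family of small diameter -/
theorem touched_window (ha : 0 < a) (hab : a < b) {L : ℕ} (hL : 0 < L) (hLN : L ∣ N)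
    (v u : Vtx N) (ω : Edge N → Bool) (G : Finset (Vtx N)) (D : ℕ)
    (hG : ∀ e ∈ U (tileE L) G, ∀ e' ∈ U (tileE L) G, rho e.1 e'.1 ≤ D) :
    ((((gam a b v u ω).image (fun e => corner L e.1)) ∩ G).card : ℝ) ≤
      9 * (b / a * (D + 2) / L + 1) := by
  have hb : 0 < b := ha.trans hab
  have hL' : (0 : ℝ) < L := by exact_mod_cast hL
  have hmem : ∀ e : Edge N, corner L e.1 ∈ G → e ∈ U (tileE L) G := by
    intro e he
    unfold U
    rw [Finset.mem_biUnion]
    exact ⟨corner L e.1, he, by simp [tileE]⟩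
  rcases win_section ha hab v u ω (U (tileE L) G) D hG with h0 | ⟨p, q, l2, hw, hlen, hall⟩
  · have : (((gam a b v u ω).image (fun e => corner L e.1)) ∩ G) = ∅ := by
      rw [Finset.eq_empty_iff_forall_notMem]
      intro c hc
      rw [Finset.mem_inter, Finset.mem_image] at hc
      obtain ⟨⟨e, he, rfl⟩, hcG⟩ := hc
      exact h0 e (List.mem_toFinset.1 he) (hmem e hcG)
    rw [this]
    simp only [Finset.card_empty, Nat.cast_zero]
    positivity
  · have hsub : (((gam a b v u ω).image (fun e => corner L e.1)) ∩ G) ⊆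
        (l2.map (fun e => corner L e.1)).toFinset := by
      intro c hc
      rw [Finset.mem_inter, Finset.mem_image] at hc
      obtain ⟨⟨e, he, rfl⟩, hcG⟩ := hc
      rw [List.mem_toFinset, List.mem_map]
      exact ⟨e, hall e (List.mem_toFinset.1 he) (hmem e hcG), rfl⟩
    have h1 := (Finset.card_le_card hsub).trans
      (bal_walk_touched hL hLN l2.length p q l2 le_rfl hw)
    have h2 : (((l2.length / L : ℕ)) : ℝ) ≤ b / a * (D + 2) / L := by
      refine (Nat.cast_div_le).trans ?_
      apply div_le_div_of_nonneg_right _ hL'.le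
      rw [div_mul_eq_mul_div, le_div_iff₀ ha]
      linarith
    have h3 : (((((gam a b v u ω).image (fun e => corner L e.1)) ∩ G).card : ℕ) : ℝ) ≤
        ((9 * (l2.length / L + 1) : ℕ) : ℝ) := by exact_mod_cast h1
    refine h3.trans ?_
    push_cast
    linarith

end

end Pool.FPV
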